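import Mathlib

set_option maxHeartbeats 400000

open Finset

namespace Pool.Agent.Results.MP_f9d380_an.Counter

section defs
variable {X : Type} [NormedAddCommGroup X] [NormedSpace ℝ X] (e : ℕ → X) (f : ℕ → X →L[ℝ] ℝ)

/-- coordinate projection onto a finite set -/
noncomputable def P (A : Finset ℕ) (x : X) : X := ∑ i ∈ A, f i x • e i

/-- bounded Markushevich basis with bounded duals and uniformly bounded partial sums -/
def IsSchauder : Prop :=
  (∀ i j, f i (e j) = if i = j then 1 else 0) ∧ Dense (Submodule.span ℝ (Set.range e) : Set X) ∧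
  (∀ x, (∀ i, f i x = 0) → x = 0) ∧ (∃ C : ℝ, ∀ i, ‖e i‖ ≤ C ∧ ‖f i‖ ≤ C) ∧
  ∃ C : ℝ, ∀ m x, ‖P e f (range m) x‖ ≤ C * ‖x‖

/-- A is a greedy set for x -/
def Greedy (A : Finset ℕ) (x : X) : Prop := ∀ i ∈ A, ∀ j ∉ A, |f j x| ≤ |f i x|

/-- g_m ≤ C -/
def GLe (m : ℕ) (C : ℝ) : Prop :=
  ∀ x A, Greedy f A x → A.card ≤ m → ‖P e f A x‖ ≤ C * ‖x‖

/-- the Chebyshev greedy inequality of order m with constant C, for every greedy set -/
def ChLe (m : ℕ) (C : ℝ) : Prop :=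
  ∀ x A, Greedy f A x → A.card = m → ∀ (B : Finset ℕ) (b : ℕ → ℝ), B.card ≤ m →
    ∃ a : ℕ → ℝ, ‖x - ∑ i ∈ A, a i • e i‖ ≤ C * ‖x - ∑ i ∈ B, b i • e i‖

end defs

abbrev E : Type := lp (fun _ : ℕ => ℝ) 1

lemma hs (a : E) : HasSum (fun i => ‖a i‖) ‖a‖ := by simpa using lp.hasSum_norm (by simp) a

lemma sm (a : E) : Summable fun i => a i := (hs a).summable.of_norm

noncomputable def σ : E →L[ℝ] ℝ :=
  LinearMap.mkContinuous ⟨⟨fun a => ∑' i, a i, fun a b => (sm a).tsum_add (sm b)⟩,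
    fun c a => tsum_mul_left⟩ 1 fun a => by
      rw [one_mul]; exact tsum_of_norm_bounded (hs a) fun _ => le_rfl

lemma σle (a : E) : |σ a| ≤ ‖a‖ := tsum_of_norm_bounded (hs a) fun _ => le_rfl

noncomputable def ε (i : ℕ) : E := lp.single 1 i 1

lemma εa (i j : ℕ) : ε i j = if j = i then 1 else 0 := by
  rw [ε, lp.single_apply, Pi.single_apply]

lemma σε (i : ℕ) : σ (ε i) = 1 := by
  change ∑' j, ε i j = 1
  simp [εa]

lemma εn (i : ℕ) : ‖ε i‖ = 1 := by rw [ε, lp.norm_single (by norm_num), norm_one]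

lemma sgl (a : ℝ) (i : ℕ) : lp.single 1 i a = a • ε i := by
  rw [ε, ← lp.single_smul, smul_eq_mul, mul_one]

lemma cut (a : E) (A : Finset ℕ) : ‖a - ∑ i ∈ A, a i • ε i‖ = ‖a‖ - ∑ i ∈ A, |a i| := by
  simpa [sgl] using lp.norm_compl_sum_single (p := 1) (by simp) a A

lemma co (A : Finset ℕ) (b : ℕ → ℝ) (j : ℕ) :
    (∑ i ∈ A, b i • ε i) j = if j ∈ A then b j else 0 := by
  rw [lp.coeFn_sum, Finset.sum_apply]
  simp [εa]

variable (δ : Set.Ioc (0:ℝ) 1)

noncomputable def T : E →L[ℝ] ℝ × E := σ.prod (δ.1 • ContinuousLinearMap.id ℝ E)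

lemma Tn (a : E) : ‖T δ a‖ = max |σ a| (δ.1 * ‖a‖) := by
  change max ‖σ a‖ ‖δ.1 • a‖ = _
  rw [norm_smul, Real.norm_of_nonneg δ.2.1.le, Real.norm_eq_abs]

lemma anti : AntilipschitzWith ⟨δ.1⁻¹, (inv_pos.2 δ.2.1).le⟩ (T δ) :=
  (T δ).antilipschitz_of_bound fun a => by
    change _ ≤ δ.1⁻¹ * _
    rw [le_inv_mul_iff₀ δ.2.1, Tn]; exact le_max_right _ _

def X : Type := (T δ).range
noncomputable instance : NormedAddCommGroup (X δ) :=
  inferInstanceAs (NormedAddCommGroup (T δ).range)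
noncomputable instance : NormedSpace ℝ (X δ) := inferInstanceAs (NormedSpace ℝ (T δ).range)
instance : CompleteSpace (X δ) :=
  ((anti δ).isClosed_range (T δ).uniformContinuous).completeSpace_coe

noncomputable def eX : E ≃L[ℝ] X δ :=
  (T δ).equivRange (anti δ).injective ((anti δ).isClosed_range (T δ).uniformContinuous)

lemma nX (a : E) : ‖eX δ a‖ = max |σ a| (δ.1 * ‖a‖) := Tn δ a

noncomputable def e (i : ℕ) : X δ := eX δ (ε i)

noncomputable def f (i : ℕ) : X δ →L[ℝ] ℝ :=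
  (LinearMap.mkContinuous ⟨⟨fun a : E => a i, fun _ _ => rfl⟩, fun _ _ => rfl⟩ 1 fun a => by
    rw [one_mul]; exact lp.norm_apply_le_norm (by norm_num) a i).comp (eX δ).symm.toContinuousLinearMap

lemma fa (i : ℕ) (a : E) : f δ i (eX δ a) = a i := by
  change ((eX δ).symm (eX δ a)) i = _
  rw [ContinuousLinearEquiv.symm_apply_apply]

lemma es (A : Finset ℕ) (b : ℕ → ℝ) : ∑ i ∈ A, b i • e δ i = eX δ (∑ i ∈ A, b i • ε i) := by
  simp [e]

lemma up (a : E) : ‖eX δ a‖ ≤ ‖a‖ := by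
  rw [nX]; exact max_le (σle a) (mul_le_of_le_one_left (norm_nonneg _) δ.2.2)

lemma lo (a : E) : ‖a‖ ≤ δ.1⁻¹ * ‖eX δ a‖ := by
  rw [le_inv_mul_iff₀ δ.2.1, nX]; exact le_max_right _ _

lemma sch : IsSchauder (e δ) (f δ) := by
  have d1 : 1 ≤ δ.1⁻¹ := one_le_inv_iff₀.2 δ.2
  refine ⟨fun i j => by rw [e, fa, εa], fun x => ?_, fun x h => ?_, ⟨δ.1⁻¹, fun i =>
    ⟨(up δ _).trans (by rw [εn]; exact d1), (f δ i).opNorm_le_bound (by linarith) fun x => ?_⟩⟩,
    2 * δ.1⁻¹, fun m x => ?_⟩ <;> obtain ⟨a, rfl⟩ := (eX δ).surjective x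
  · have := (eX δ).toContinuousLinearMap.hasSum (lp.hasSum_single (p := 1) (by simp) a)
    refine mem_closure_of_tendsto this (Filter.Eventually.of_forall fun s => ?_)
    refine Submodule.sum_mem _ fun i _ => ?_
    rw [sgl, map_smul]
    exact Submodule.smul_mem _ _ (Submodule.subset_span ⟨i, rfl⟩)
  · rw [show a = 0 from lp.ext (funext fun i => (fa δ i a).symm.trans (h i)), map_zero]
  · rw [fa]; exact (lp.norm_apply_le_norm (by norm_num) a i).trans (lo δ a)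
  · simp only [P, fa]
    rw [es]
    have h1 := cut a (range m)
    have h2 := norm_sub_le a (a - ∑ i ∈ range m, a i • ε i)
    have h3 : 0 ≤ ∑ i ∈ range m, |a i| := by positivity
    rw [sub_sub_cancel] at h2
    linarith [up δ (∑ i ∈ range m, a i • ε i), lo δ a]

lemma ch {m : ℕ} (hm : 0 < m) : ChLe (e δ) (f δ) m 3 := by
  intro x A hG hA B b hB
  obtain ⟨a, rfl⟩ := (eX δ).surjective x
  simp only [Greedy, fa] at hG
  obtain ⟨n, hn, hmin⟩ := A.exists_min_image (fun i => |a i|) (card_pos.1 (by omega))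
  have s1 : ∑ i ∈ B, |a i| ≤ ∑ i ∈ A, |a i| := by
    have b1 := sum_le_card_nsmul (B \ A) (fun i => |a i|) _ fun i hi => hG n hn i (mem_sdiff.1 hi).2
    have b2 := card_nsmul_le_sum (A \ B) (fun i => |a i|) _ fun i hi => hmin i (mem_sdiff.1 hi).1
    have b3 : ((B \ A).card : ℝ) ≤ (A \ B).card := by
      exact_mod_cast card_sdiff_le_card_sdiff_iff.2 (by omega)
    have b4 := sum_inter_add_sum_sdiff A B fun i => |a i|
    have b5 := sum_inter_add_sum_sdiff B A fun i => |a i|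
    rw [inter_comm] at b5
    rw [nsmul_eq_mul] at b1 b2
    nlinarith [abs_nonneg (a n)]
  set y := ∑ i ∈ B, b i • ε i with hy
  set w := a - ∑ i ∈ A, a i • ε i with hw
  have s2 : ‖w‖ ≤ ‖a - y‖ := by
    have c1 := cut (a - y) B
    have c2 : a - y - ∑ i ∈ B, (a - y) i • ε i = a - ∑ i ∈ B, a i • ε i := by
      ext j
      simp only [lp.coeFn_sub, Pi.sub_apply, hy, co]
      split_ifs <;> simp
    have c3 : 0 ≤ ∑ i ∈ B, |(a - y) i| := by positivity
    rw [c2, cut] at c1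
    rw [hw, cut]; linarith
  set τ := σ w - σ (a - y) with hτ
  refine ⟨fun i => a i + if i = n then τ else 0, ?_⟩
  rw [es, es, ← map_sub, ← map_sub, nX, nX, ← hy]
  have s3 : a - ∑ i ∈ A, (a i + if i = n then τ else 0) • ε i = w - τ • ε n := by
    simp [hw, add_smul, sum_add_distrib, hn, sub_sub]
  have s4 : ‖w - τ • ε n‖ ≤ 3 * ‖a - y‖ := by
    have := norm_sub_le w (τ • ε n)
    rw [norm_smul, εn, mul_one, Real.norm_eq_abs] at this
    linarith [abs_sub (σ w) (σ (a - y)), σle w, σle (a - y)]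
  have m1 := le_max_left |σ (a - y)| (δ.1 * ‖a - y‖)
  have m2 := le_max_right |σ (a - y)| (δ.1 * ‖a - y‖)
  rw [s3, map_sub, map_smul, σε, smul_eq_mul, mul_one, hτ, sub_sub_cancel]
  refine max_le (by linarith [abs_nonneg (σ (a - y))]) ?_
  nlinarith [δ.2.1]

theorem result (C : ℝ) :
    ∃ (X : Type) (_ : NormedAddCommGroup X) (_ : NormedSpace ℝ X) (_ : CompleteSpace X)
      (e : ℕ → X) (f : ℕ → X →L[ℝ] ℝ), IsSchauder e f ∧
      ∀ m, 0 < m → ChLe e f m 3 ∧ ¬ GLe e f m C := by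
  have c0 := abs_nonneg C
  let δ : Set.Ioc (0:ℝ) 1 := ⟨1 / (2 * |C| + 1), by positivity,
    (div_le_one (by positivity)).2 (by linarith)⟩
  refine ⟨X δ, inferInstance, inferInstance, inferInstance, e δ, f δ, sch δ, fun m hm =>
    ⟨ch δ hm, fun h => ?_⟩⟩
  have v : ∀ j, (ε 0 - ε 1) j = ε 0 j - ε 1 j := fun _ => rfl
  have h1 := h (eX δ (ε 0 - ε 1)) {0} (fun i hi j _ => by
    rw [fa, fa, mem_singleton.1 hi, v, v]
    simp only [εa]
    split_ifs <;> first | contradiction | omega | norm_num) (by rw [card_singleton]; exact hm)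
  rw [P, sum_singleton, fa, v, εa, εa, e] at h1
  norm_num at h1
  rw [← map_sub, nX, nX, map_sub, σε, σε, sub_self, abs_zero, abs_one,
    max_eq_right (b := δ.1 * ‖ε 0 - ε 1‖) (mul_nonneg δ.2.1.le (norm_nonneg _))] at h1
  have h2 := norm_sub_le (ε 0) (ε 1)
  rw [εn, εn] at h2
  have h3 : δ.1 * (2 * |C| + 1) = 1 := one_div_mul_cancel (by positivity)
  have h4 := (le_max_left _ _).trans h1
  have h5 : C * (δ.1 * ‖ε 0 - ε 1‖) ≤ |C| * (δ.1 * 2) :=
    mul_le_mul (le_abs_self C) (mul_le_mul_of_nonneg_left (by linarith) δ.2.1.le)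
      (mul_nonneg δ.2.1.le (norm_nonneg _)) c0
  nlinarith [δ.2.1]

end Pool.Agent.Results.MP_f9d380_an.Counter
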